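import Mathlib
import Pool.Agent.V11217.HyperMore

/-!
Simplicial refinements with far fewer vertices than the model.
-/

namespace Pool.Agent.Results.MP_902647_gt.FewerVertices

open Set Pool.Agent.V11217.Refine Pool.Agent.V11217

theorem result (K : ℕ) : ∃ (n : ℕ) (ι : Type) (_ : Fintype ι) (C : Set (Fin n → ℝ))
    (T : Set (ι → ℝ)) (f : PartialMap T C) (g : PartialMap (Effects T) (Effects C)),
    IsPolytope C ∧ ¬ IsSimplex C ∧ IsRefinement T C f g ∧
    (T.extremePoints ℝ).Finite ∧ 0 < (T.extremePoints ℝ).ncard ∧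
    K * (T.extremePoints ℝ).ncard ≤ (C.extremePoints ℝ).ncard := by
  classical
  let l := 2 * K + 1
  obtain ⟨φ, g, h⟩ := Hyper.refinement l
  obtain ⟨e, he, hT⟩ := stdSimplex_vertices (Hyper.Lo l ⊕ Hyper.Up l) (Hyper.card_index l)
  have hcard : ((Hyper.T l).extremePoints ℝ).ncard = 2 * (2 * l + 1).choose l :=
    ncard_extremePoints_simplex he hT
  have hpos : 0 < (2 * l + 1).choose l := Nat.choose_pos (by omega)
  refine ⟨2 * l + 1, Hyper.Lo l ⊕ Hyper.Up l, inferInstance, Hyper.C l, Hyper.T l, φ, g,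
    Hyper.polytope l, Hyper.not_simplex l (by omega), h, ?_, ?_, ?_⟩
  · apply Set.finite_of_ncard_pos
    rw [hcard]; omega
  · rw [hcard]; omega
  · rw [hcard, Hyper.ncard_extreme]
    have : K * (2 * (2 * l + 1).choose l) = (2 * K) * (2 * l + 1).choose l := by ring
    rw [this]
    exact Nat.mul_le_mul_right _ (by omega)

end Pool.Agent.Results.MP_902647_gt.FewerVertices
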